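import Pool.Agent.PJC.Stmts

/-! PJC, row TRU: spectral truncation of a finite second moment matrix. -/

set_option autoImplicit false

namespace Pool.Agent.PJC.H25

variable {n : ℕ}

/-- the second moment operator is diagonal in an orthonormal basis -/
theorem spec {I : Type} [Fintype I] (w : I → ℝ) (v : I → Eu n) (hw : ∀ i, 0 ≤ w i) :
    ∃ (b : OrthonormalBasis (Fin n) ℝ (Eu n)) (c : Fin n → ℝ), (∀ l, 0 ≤ c l) ∧
      ∀ x y : Eu n, ∑ i, w i * (inner ℝ (v i) x * inner ℝ (v i) y) =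
        ∑ l, c l * (inner ℝ (b l) x * inner ℝ (b l) y) := by
  let C : Eu n →ₗ[ℝ] Eu n := ∑ i, (w i) • ((innerSL ℝ (v i)).toLinearMap.smulRight (v i))
  have hC : ∀ x, C x = ∑ i, w i • (inner ℝ (v i) x • v i) := by
    intro x
    show (∑ i, (w i) • ((innerSL ℝ (v i)).toLinearMap.smulRight (v i))) x = _
    rw [LinearMap.sum_apply]
    rfl
  have hCi : ∀ x y, inner ℝ (C x) y = ∑ i, w i * (inner ℝ (v i) x * inner ℝ (v i) y) := by
    intro x y
    rw [hC, sum_inner]
    refine Finset.sum_congr rfl fun i _ => ?_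
    rw [real_inner_smul_left, real_inner_smul_left]
  have hS : C.IsSymmetric := by
    intro x y
    rw [hCi, real_inner_comm, hCi]
    refine Finset.sum_congr rfl fun i _ => ?_
    ring
  have hfr : Module.finrank ℝ (Eu n) = n := by simp
  refine ⟨hS.eigenvectorBasis hfr, hS.eigenvalues hfr, ?_, ?_⟩
  · intro l
    have h1 : inner ℝ (C (hS.eigenvectorBasis hfr l)) (hS.eigenvectorBasis hfr l) =
        hS.eigenvalues hfr l := by
      rw [hS.apply_eigenvectorBasis hfr l]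
      rw [RCLike.real_smul_eq_coe_smul (K := ℝ), inner_smul_left]
      simp
    rw [← h1, hCi]
    exact Finset.sum_nonneg fun i _ => mul_nonneg (hw i) (mul_self_nonneg _)
  · intro x y
    rw [← hCi, ← (hS.eigenvectorBasis hfr).sum_inner_mul_inner (C x) y]
    refine Finset.sum_congr rfl fun l _ => ?_
    rw [hS x, hS.apply_eigenvectorBasis hfr l]
    rw [RCLike.real_smul_eq_coe_smul (K := ℝ), inner_smul_right, real_inner_comm]
    simp only [RCLike.ofReal_real_eq_id, id_eq]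
    ring

theorem tru : TruStmt := by
  classical
  intro n I _ w V v L hL hw
  obtain ⟨b, c, hc, hQ⟩ := spec w v hw
  -- coordinates
  have hin : ∀ x y : Eu n, inner ℝ x y = ∑ l, inner ℝ (b l) x * inner ℝ (b l) y := by
    intro x y
    rw [← b.sum_inner_mul_inner x y]
    refine Finset.sum_congr rfl fun l _ => ?_
    rw [real_inner_comm]
  have hnm : ∀ x : Eu n, ‖x‖ ^ 2 = ∑ l, inner ℝ (b l) x ^ 2 := by
    intro x
    rw [← real_inner_self_eq_norm_sq, hin]
    refine Finset.sum_congr rfl fun l _ => ?_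
    ring
  let P : Finset (Fin n) := Finset.univ.filter (fun l => c l ≤ L)
  let R : Eu n →ₗ[ℝ] Eu n := ∑ l ∈ P, (innerSL ℝ (b l)).toLinearMap.smulRight (b l)
  have hR : ∀ x, R x = ∑ l ∈ P, inner ℝ (b l) x • b l := by
    intro x
    show (∑ l ∈ P, (innerSL ℝ (b l)).toLinearMap.smulRight (b l)) x = _
    rw [LinearMap.sum_apply]
    rfl
  have hRc : ∀ x l, inner ℝ (b l) (R x) = if c l ≤ L then inner ℝ (b l) x else 0 := by
    intro x l
    rw [hR, inner_sum]
    have h1 : ∀ k ∈ P, inner ℝ (b l) (inner ℝ (b k) x • b k) =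
        if l = k then inner ℝ (b k) x else 0 := by
      intro k _
      rw [real_inner_smul_right, orthonormal_iff_ite.mp b.orthonormal l k]
      split_ifs <;> simp
    rw [Finset.sum_congr rfl h1, Finset.sum_ite_eq]
    simp only [P, Finset.mem_filter, Finset.mem_univ, true_and]
  -- `R` is a symmetric projection
  have hRs : ∀ x y, inner ℝ (R x) y = inner ℝ x (R y) := by
    intro x y
    rw [hin, hin]
    refine Finset.sum_congr rfl fun l _ => ?_
    rw [hRc, hRc]
    split_ifs <;> ring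
  have hRR : ∀ x y, inner ℝ (R x) (R y) = inner ℝ x (R y) := by
    intro x y
    rw [hin, hin]
    refine Finset.sum_congr rfl fun l _ => ?_
    rw [hRc, hRc]
    split_ifs <;> ring
  have hRn : ∀ x, ‖R x‖ ^ 2 = ∑ l, if c l ≤ L then inner ℝ (b l) x ^ 2 else 0 := by
    intro x
    rw [hnm]
    refine Finset.sum_congr rfl fun l _ => ?_
    rw [hRc]
    split_ifs <;> ring
  -- the complement
  have hSn : ∀ x, ‖x‖ ^ 2 - ‖R x‖ ^ 2 = ‖x - R x‖ ^ 2 := by
    intro x
    rw [@norm_sub_sq_real, ← hRs x x, ← real_inner_self_eq_norm_sq (R x), hRR x x, ← hRs x x]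
    ring
  have hSle : ∀ x, ‖x - R x‖ ≤ ‖x‖ := by
    intro x
    have h1 := hSn x
    have h2 : ‖x - R x‖ ^ 2 ≤ ‖x‖ ^ 2 := by
      rw [← h1]
      have := sq_nonneg ‖R x‖
      linarith
    exact le_of_sq_le_sq h2 (norm_nonneg _)
  -- the quadratic form
  have hq : ∀ x, ∑ j, w j * inner ℝ (v j) x ^ 2 = ∑ l, c l * inner ℝ (b l) x ^ 2 := by
    intro x
    have := hQ x x
    calc ∑ j, w j * inner ℝ (v j) x ^ 2 = ∑ j, w j * (inner ℝ (v j) x * inner ℝ (v j) x) := by
          refine Finset.sum_congr rfl fun j _ => ?_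
          ring
      _ = ∑ l, c l * (inner ℝ (b l) x * inner ℝ (b l) x) := this
      _ = _ := by
          refine Finset.sum_congr rfl fun j _ => ?_
          ring
  have hqV : ∀ x, ∑ j, w j * inner ℝ x (v j) ^ 2 = ∑ l, c l * inner ℝ (b l) x ^ 2 := by
    intro x
    rw [← hq]
    refine Finset.sum_congr rfl fun j _ => ?_
    rw [real_inner_comm]
  -- the truncated form
  set Mq : Eu n → ℝ := fun x => ∑ l, if c l ≤ L then c l * inner ℝ (b l) x ^ 2 else 0 with hMq
  have hMle : ∀ x, Mq x ≤ ∑ l, c l * inner ℝ (b l) x ^ 2 := by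
    intro x
    refine Finset.sum_le_sum fun l _ => ?_
    split_ifs
    · exact le_refl _
    · exact mul_nonneg (hc l) (sq_nonneg _)
  have hMR : ∀ x, ∑ l, c l * inner ℝ (b l) (R x) ^ 2 = Mq x := by
    intro x
    refine Finset.sum_congr rfl fun l _ => ?_
    rw [hRc]
    split_ifs <;> ring
  have hML : ∀ x, Mq x ≤ L * ‖x‖ ^ 2 := by
    intro x
    rw [hnm, Finset.mul_sum]
    refine Finset.sum_le_sum fun l _ => ?_
    split_ifs with h
    · exact mul_le_mul_of_nonneg_right h (sq_nonneg _)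
    · exact mul_nonneg hL.le (sq_nonneg _)
  have hMd : ∀ x y : Eu n, Mq x ≤ Mq y + L * (‖y - x‖ * (‖y‖ + ‖x‖)) := by
    intro x y
    have h1 : Mq x - Mq y ≤ ∑ l, L * (|inner ℝ (b l) (y - x)| * |inner ℝ (b l) (y + x)|) := by
      rw [hMq]
      simp only
      rw [← Finset.sum_sub_distrib]
      refine Finset.sum_le_sum fun l _ => ?_
      split_ifs with h
      · rw [← abs_mul, inner_sub_right, inner_add_right]
        have h2 : (inner ℝ (b l) y - inner ℝ (b l) x) * (inner ℝ (b l) y + inner ℝ (b l) x) =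
            inner ℝ (b l) y ^ 2 - inner ℝ (b l) x ^ 2 := by ring
        rw [h2]
        have h3 : c l * inner ℝ (b l) x ^ 2 - c l * inner ℝ (b l) y ^ 2 ≤
            c l * |inner ℝ (b l) y ^ 2 - inner ℝ (b l) x ^ 2| := by
          rw [← mul_sub]
          refine mul_le_mul_of_nonneg_left ?_ (hc l)
          rw [← neg_sub]
          exact neg_le_abs _
        exact h3.trans (mul_le_mul_of_nonneg_right h (abs_nonneg _))
      · rw [sub_zero]
        exact mul_nonneg hL.le (mul_nonneg (abs_nonneg _) (abs_nonneg _))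
    have h2 : ∑ l, |inner ℝ (b l) (y - x)| * |inner ℝ (b l) (y + x)| ≤ ‖y - x‖ * ‖y + x‖ := by
      have h3 := Real.sum_mul_le_sqrt_mul_sqrt Finset.univ (fun l => |inner ℝ (b l) (y - x)|)
        (fun l => |inner ℝ (b l) (y + x)|)
      simp only [sq_abs] at h3
      rw [← hnm, ← hnm, Real.sqrt_sq (norm_nonneg _), Real.sqrt_sq (norm_nonneg _)] at h3
      exact h3
    have h3 : ‖y + x‖ ≤ ‖y‖ + ‖x‖ := norm_add_le _ _
    rw [← Finset.mul_sum] at h1
    have h4 : ∑ l, |inner ℝ (b l) (y - x)| * |inner ℝ (b l) (y + x)| ≤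
        ‖y - x‖ * (‖y‖ + ‖x‖) := h2.trans (mul_le_mul_of_nonneg_left h3 (norm_nonneg _))
    have h5 := mul_le_mul_of_nonneg_left h4 hL.le
    linarith
  have hSd : ∀ x y : Eu n, ‖x - R x‖ ^ 2 ≤ ‖y - R y‖ ^ 2 + ‖y - x‖ * (‖y‖ + ‖x‖) := by
    intro x y
    have h1 : ‖x - R x‖ ≤ ‖y - R y‖ + ‖y - x‖ := by
      have h2 : x - R x = (y - R y) - ((y - x) - R (y - x)) := by
        rw [map_sub]
        abel
      calc ‖x - R x‖ = ‖(y - R y) - ((y - x) - R (y - x))‖ := by rw [← h2]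
        _ ≤ ‖y - R y‖ + ‖(y - x) - R (y - x)‖ := norm_sub_le _ _
        _ ≤ ‖y - R y‖ + ‖y - x‖ := by linarith [hSle (y - x)]
    have h2 := hSle x
    have h3 := hSle y
    have h4 := norm_nonneg (x - R x)
    have h5 := norm_nonneg (y - R y)
    have h6 := norm_nonneg (y - x)
    have h7 : (‖x - R x‖ - ‖y - R y‖) * (‖x - R x‖ + ‖y - R y‖) ≤ ‖y - x‖ * (‖y‖ + ‖x‖) := by
      calc (‖x - R x‖ - ‖y - R y‖) * (‖x - R x‖ + ‖y - R y‖)
          ≤ ‖y - x‖ * (‖x - R x‖ + ‖y - R y‖) :=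
            mul_le_mul_of_nonneg_right (by linarith) (by linarith)
        _ ≤ ‖y - x‖ * (‖y‖ + ‖x‖) := mul_le_mul_of_nonneg_left (by linarith) h6
    nlinarith
  have hSL : ∀ x, L * ‖x - R x‖ ^ 2 ≤ ∑ l, c l * inner ℝ (b l) x ^ 2 := by
    intro x
    rw [hnm, Finset.mul_sum]
    refine Finset.sum_le_sum fun l _ => ?_
    rw [inner_sub_right, hRc]
    split_ifs with h
    · rw [sub_self, zero_pow two_ne_zero, mul_zero]
      exact mul_nonneg (hc l) (sq_nonneg _)
    · rw [sub_zero]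
      exact mul_le_mul_of_nonneg_right (not_le.mp h).le (sq_nonneg _)
  refine ⟨R, ?_, ?_, ?_, ?_⟩
  · intro x
    have h1 : ∑ i, w i * inner ℝ (R (v i)) x ^ 2 = ∑ i, w i * inner ℝ (v i) (R x) ^ 2 := by
      refine Finset.sum_congr rfl fun i _ => ?_
      rw [hRs]
    rw [h1, hq, hMR]
    exact hML x
  · intro x y
    have h1 : ∑ i, w i * (inner ℝ (v i) x * inner ℝ (R (v i)) y) =
        ∑ i, w i * (inner ℝ (v i) x * inner ℝ (v i) (R y)) := by
      refine Finset.sum_congr rfl fun i _ => ?_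
      rw [hRs]
    have h2 : ∑ i, w i * (inner ℝ (R (v i)) x * inner ℝ (R (v i)) y) =
        ∑ i, w i * (inner ℝ (v i) (R x) * inner ℝ (v i) (R y)) := by
      refine Finset.sum_congr rfl fun i _ => ?_
      rw [hRs, hRs]
    rw [h1, h2, hQ, hQ]
    refine Finset.sum_congr rfl fun l _ => ?_
    rw [hRc, hRc]
    split_ifs <;> ring
  · have h1 : ∑ i, w i * ‖v i‖ ^ 2 ≤ ∑ i, w i * ‖R (v i)‖ ^ 2 +
        (∑ i, w i * ∑ j, w j * inner ℝ (V i) (v j) ^ 2) / L +
        ∑ i, w i * (‖V i - v i‖ * (‖V i‖ + ‖v i‖)) := by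
      rw [Finset.sum_div, ← Finset.sum_add_distrib, ← Finset.sum_add_distrib]
      refine Finset.sum_le_sum fun i _ => ?_
      rw [hqV]
      have h2 := hSn (v i)
      have h3 := hSd (v i) (V i)
      have h4 := hSL (V i)
      have h5 : ‖V i - R (V i)‖ ^ 2 ≤ (∑ l, c l * inner ℝ (b l) (V i) ^ 2) / L := by
        rw [le_div_iff₀ hL]
        linarith
      have h6 : ‖v i‖ ^ 2 ≤ ‖R (v i)‖ ^ 2 + (∑ l, c l * inner ℝ (b l) (V i) ^ 2) / L +
          ‖V i - v i‖ * (‖V i‖ + ‖v i‖) := by linarith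
      have h7 := mul_le_mul_of_nonneg_left h6 (hw i)
      calc w i * ‖v i‖ ^ 2 ≤ w i * (‖R (v i)‖ ^ 2 + (∑ l, c l * inner ℝ (b l) (V i) ^ 2) / L +
          ‖V i - v i‖ * (‖V i‖ + ‖v i‖)) := h7
        _ = _ := by ring
    linarith
  · have h1 : ∑ i, w i * ∑ j, w j * inner ℝ (R (v i)) (R (v j)) ^ 2 = ∑ i, w i * Mq (v i) := by
      refine Finset.sum_congr rfl fun i _ => ?_
      rw [← hMR, ← hqV]
      congr 1
      refine Finset.sum_congr rfl fun j _ => ?_
      rw [real_inner_comm (R (v j)) (R (v i)), hRR, real_inner_comm]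
    rw [h1, Finset.mul_sum, ← Finset.sum_add_distrib]
    refine Finset.sum_le_sum fun i _ => ?_
    rw [hqV]
    have h2 := hMd (v i) (V i)
    have h3 := hMle (V i)
    have h4 : Mq (v i) ≤ ∑ l, c l * inner ℝ (b l) (V i) ^ 2 +
        L * (‖V i - v i‖ * (‖V i‖ + ‖v i‖)) := by linarith
    calc w i * Mq (v i) ≤ w i * (∑ l, c l * inner ℝ (b l) (V i) ^ 2 +
        L * (‖V i - v i‖ * (‖V i‖ + ‖v i‖))) := mul_le_mul_of_nonneg_left h4 (hw i)
      _ = _ := by ring

end Pool.Agent.PJC.H25
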